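import Mathlib
import Pool.Agent.Lib.MP_82f784_co.Defs
import Pool.Agent.Lib.MP_82f784_co.Upper
import Pool.Agent.Lib.MP_82f784_co.Lower

open Pool.Agent.Lib.MP_82f784_co

/-- For `t ≥ 6`, the inequality `γ_s(G) ≤ (3/2) α(G)` holds for every finite graph with no induced
path on `t` vertices exactly when `t = 6`. -/
theorem Pool.Agent.Results.MP_82f784_co.Answer.result (t : ℕ) (ht : 6 ≤ t) :
    (∀ (V : Type) [Fintype V] (G : SimpleGraph V),
      ¬ (SimpleGraph.pathGraph t).IsIndContained G →
        (secDomNum G : ℚ) ≤ 3 / 2 * (G.indepNum : ℚ)) ↔ t = 6 := by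
  constructor
  · intro h
    by_contra hne
    have h1 := h (ZMod 127) G127 (free127 (by omega))
    have h2 : (5 : ℚ) ≤ secDomNum G127 := by exact_mod_cast five_le
    have h3 : (G127.indepNum : ℚ) ≤ 3 := by exact_mod_cast indepNum_le
    linarith
  · rintro rfl V _ G hG
    have h1 : (2 : ℚ) * secDomNum G ≤ 3 * G.indepNum := by exact_mod_cast upper G hG
    linarith
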